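import Pool.Agent.T9h40.GP.Spec

/-!
# B2: the branches are holomorphic
-/

set_option autoImplicit false

open Polynomial Filter Topology Bornology

namespace Pool.Agent.T9h18.GP

open Pool.Agent.T9h40.GP

theorem b2 : B2 := by
  intro n e P A H R y hR hfac hlim
  set α : Fin n → ℂ := fun l => (A l).leadingCoeff with hα
  have hinj : Function.Injective α := H.inj
  -- the minimal distance
  obtain ⟨δ, hδ, hδ2⟩ : ∃ δ : ℝ, 0 < δ ∧ ∀ i j, i ≠ j → 4 * δ ≤ ‖α i - α j‖ := by
    classical
    by_cases hne : (Finset.univ.filter fun p : Fin n × Fin n => p.1 ≠ p.2).Nonempty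
    · obtain ⟨p, hp, hpm⟩ := Finset.exists_min_image _ (fun p : Fin n × Fin n => ‖α p.1 - α p.2‖)
        hne
      have hp' : p.1 ≠ p.2 := (Finset.mem_filter.1 hp).2
      have : 0 < ‖α p.1 - α p.2‖ := norm_pos_iff.2 (sub_ne_zero.2 fun h => hp' (hinj h))
      refine ⟨‖α p.1 - α p.2‖ / 4, by positivity, fun i j hij => ?_⟩
      have := hpm (i, j) (Finset.mem_filter.2 ⟨Finset.mem_univ _, hij⟩)
      simp only at this
      linarith
    · refine ⟨1, one_pos, fun i j hij => absurd ⟨(i, j), ?_⟩ hne⟩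
      exact Finset.mem_filter.2 ⟨Finset.mem_univ _, hij⟩
  have h1 : ∀ j, ∃ r : ℝ, ∀ t : ℂ, r < ‖t‖ → ‖y j t / t ^ e - α j‖ < δ := by
    intro j
    have h : ∀ᶠ t in cobounded ℂ, ‖y j t / t ^ e - α j‖ < δ := by
      have h0 := (hlim j).eventually (Metric.ball_mem_nhds _ hδ)
      refine h0.mono fun t ht => ?_
      rwa [dist_eq_norm] at ht
    rw [← comap_norm_atTop, eventually_comap] at h
    obtain ⟨r, hr⟩ := eventually_atTop.1 h
    exact ⟨r, fun t ht => hr ‖t‖ ht.le t rfl⟩
  choose r hr using h1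
  obtain ⟨R₁, hR₁, hR₁r⟩ : ∃ R₁ : ℝ, R ≤ R₁ ∧ ∀ j, r j ≤ R₁ := by
    refine ⟨max R (∑ j, |r j|), le_max_left _ _, fun j => ?_⟩
    refine le_trans ?_ (le_max_right _ _)
    exact (le_abs_self _).trans (Finset.single_le_sum (fun i _ => abs_nonneg (r i))
      (Finset.mem_univ j))
  have hpos : 0 < R₁ := hR.trans_le hR₁
  have hclose : ∀ j t, R₁ < ‖t‖ → ‖y j t / t ^ e - α j‖ < δ := fun j t ht =>
    hr j t ((hR₁r j).trans_lt ht)
  have hopen : IsOpen {t : ℂ | R₁ < ‖t‖} := isOpen_lt continuous_const continuous_norm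
  -- separation
  have hsep : ∀ (i j : Fin n) (t s : ℂ), i ≠ j → R₁ < ‖t‖ → ‖s / t ^ e - α j‖ < δ →
      2 * δ * ‖t‖ ^ e ≤ ‖s - y i t‖ := by
    intro i j t s hij ht hs
    have ht0 : t ≠ 0 := by
      rintro rfl
      rw [norm_zero] at ht
      linarith
    have e1 : s - y i t = t ^ e * (s / t ^ e - y i t / t ^ e) := by
      field_simp
    rw [e1, norm_mul, norm_pow, mul_comm]
    refine mul_le_mul_of_nonneg_left ?_ (by positivity)
    have h2 := hδ2 j i hij.symm
    have h3 := hclose i t ht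
    have h4 : ‖α j - α i‖ ≤ ‖s / t ^ e - α j‖ + ‖s / t ^ e - y i t / t ^ e‖ +
        ‖y i t / t ^ e - α i‖ := by
      have : α j - α i = -(s / t ^ e - α j) + (s / t ^ e - y i t / t ^ e) +
        (y i t / t ^ e - α i) := by ring
      rw [this]
      refine (norm_add_le _ _).trans (add_le_add ((norm_add_le _ _).trans ?_) le_rfl)
      rw [norm_neg]
    linarith
  refine ⟨R₁, hR₁, fun j => ?_, fun t ht i j hij => ?_⟩
  · -- continuity of all branches
    have hG : ∀ s : ℂ, Differentiable ℂ fun t => evalEval t s P := by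
      intro s
      exact (P.eval (C s)).differentiable
    have hmain : ∀ (k : Fin n) (t₀ : ℂ), R₁ < ‖t₀‖ → ∀ᶠ t in 𝓝 t₀, R₁ < ‖t‖ ∧
        ‖y k t₀ / t ^ e - α k‖ < δ := by
      intro k t₀ ht₀
      have ht0 : t₀ ≠ 0 := by
        rintro rfl
        rw [norm_zero] at ht₀
        linarith
      have hc : ContinuousAt (fun t : ℂ => ‖y k t₀ / t ^ e - α k‖) t₀ := by
        refine ContinuousAt.norm (ContinuousAt.sub (ContinuousAt.div continuousAt_const
          (continuousAt_id.pow e) (pow_ne_zero _ ht0)) continuousAt_const)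
      exact (show ∀ᶠ t in 𝓝 t₀, R₁ < ‖t‖ from hopen.mem_nhds ht₀).and
        (hc.eventually (gt_mem_nhds (hclose k t₀ ht₀)))
    have hprod : ∀ (k : Fin n) (t₀ t : ℂ), R₁ < ‖t‖ →
        evalEval t (y k t₀) P = (y k t₀ - y k t) *
          ∏ i ∈ Finset.univ.erase k, (y k t₀ - y i t) := by
      intro k t₀ t ht
      rw [hfac t (hR₁.trans_lt ht), Finset.mul_prod_erase Finset.univ
        (fun i => y k t₀ - y i t) (Finset.mem_univ k)]
    have hcont : ∀ (k : Fin n) (t₀ : ℂ), R₁ < ‖t₀‖ → ContinuousAt (y k) t₀ := by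
      intro k t₀ ht₀
      have hz : evalEval t₀ (y k t₀) P = 0 := by
        rw [hprod k t₀ t₀ ht₀, sub_self, zero_mul]
      have hGc : Tendsto (fun t => evalEval t (y k t₀) P) (𝓝 t₀) (𝓝 0) := by
        have := (hG (y k t₀)).continuous.tendsto t₀
        rwa [hz] at this
      -- lower bound of the product
      set c : ℝ := (2 * δ * R₁ ^ e) ^ (Finset.univ.erase k).card with hc
      have hcpos : 0 < c := by positivity
      have hb : ∀ᶠ t in 𝓝 t₀, ‖y k t₀ - y k t‖ ≤ ‖evalEval t (y k t₀) P‖ / c := by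
        refine (hmain k t₀ ht₀).mono fun t ht => ?_
        rw [le_div_iff₀ hcpos, hprod k t₀ t ht.1, norm_mul]
        refine mul_le_mul_of_nonneg_left ?_ (norm_nonneg _)
        rw [norm_prod, hc, ← Finset.prod_const]
        refine Finset.prod_le_prod (fun _ _ => by positivity) fun i hi => ?_
        refine le_trans ?_ (hsep i k t (y k t₀) (Finset.ne_of_mem_erase hi) ht.1 ht.2)
        exact mul_le_mul_of_nonneg_left (pow_le_pow_left₀ hpos.le ht.1.le e) (by positivity)
      have hlim0 : Tendsto (fun t => ‖evalEval t (y k t₀) P‖ / c) (𝓝 t₀) (𝓝 0) := by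
        have := (hGc.norm).div_const c
        rwa [norm_zero, zero_div] at this
      have h5 : Tendsto (fun t => y k t₀ - y k t) (𝓝 t₀) (𝓝 0) :=
        squeeze_zero_norm' hb hlim0
      have h6 : Tendsto (fun t => y k t₀ - (y k t₀ - y k t)) (𝓝 t₀) (𝓝 (y k t₀ - 0)) :=
        tendsto_const_nhds.sub h5
      simpa [ContinuousAt] using h6
    intro t₀ ht₀
    have ht₀' : R₁ < ‖t₀‖ := ht₀
    refine DifferentiableAt.differentiableWithinAt ?_
    have hz : evalEval t₀ (y j t₀) P = 0 := by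
      rw [hprod j t₀ t₀ ht₀', sub_self, zero_mul]
    have hder := (hG (y j t₀) t₀).hasDerivAt
    rw [hasDerivAt_iff_tendsto_slope] at hder
    set Q : ℂ → ℂ := fun t => ∏ i ∈ Finset.univ.erase j, (y j t₀ - y i t) with hQ
    have hQc : ContinuousAt Q t₀ := by
      refine tendsto_finsetProd _ fun i _ => ?_
      exact tendsto_const_nhds.sub (hcont i t₀ ht₀')
    have hQ0 : Q t₀ ≠ 0 := by
      rw [hQ]
      refine Finset.prod_ne_zero_iff.2 fun i hi => ?_
      have h7 := hsep i j t₀ (y j t₀) (Finset.ne_of_mem_erase hi) ht₀' (hclose j t₀ ht₀')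
      have h8 : 0 < 2 * δ * ‖t₀‖ ^ e := by
        have : 0 < ‖t₀‖ := hpos.trans ht₀'
        positivity
      exact norm_pos_iff.1 (h8.trans_le h7)
    have hslope : HasDerivAt (y j)
        (-(deriv (fun t => evalEval t (y j t₀) P) t₀) / Q t₀) t₀ := by
      rw [hasDerivAt_iff_tendsto_slope]
      have h9 : Tendsto (fun t => -(slope (fun t => evalEval t (y j t₀) P) t₀ t) / Q t)
          (𝓝[≠] t₀) (𝓝 (-(deriv (fun t => evalEval t (y j t₀) P) t₀) / Q t₀)) :=
        hder.neg.div (hQc.tendsto.mono_left nhdsWithin_le_nhds) hQ0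
      refine h9.congr' ?_
      have hev : ∀ᶠ t in 𝓝[≠] t₀, R₁ < ‖t‖ ∧ Q t ≠ 0 := by
        refine eventually_nhdsWithin_of_eventually_nhds ?_
        exact (show ∀ᶠ t in 𝓝 t₀, R₁ < ‖t‖ from hopen.mem_nhds ht₀').and
          (hQc.eventually (isOpen_ne.mem_nhds hQ0))
      refine hev.mono fun t ht => ?_
      beta_reduce
      rw [slope_def_field, slope_def_field, hz, sub_zero, hprod j t₀ t ht.1]
      have hQt : (∏ i ∈ Finset.univ.erase j, (y j t₀ - y i t)) = Q t := rfl
      rw [hQt]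
      have hQt0 := ht.2
      by_cases htt : t - t₀ = 0
      · rw [htt]
        simp
      · field_simp
        ring
    exact hslope.differentiableAt
  · by_contra hne
    have h1 := hclose i t ht
    have h2 := hclose j t ht
    have h3 := hδ2 i j hne
    simp only at hij
    rw [hij] at h1
    have h4 : ‖α i - α j‖ ≤ ‖y j t / t ^ e - α i‖ + ‖y j t / t ^ e - α j‖ := by
      have : α i - α j = -(y j t / t ^ e - α i) + (y j t / t ^ e - α j) := by ring
      rw [this]
      refine (norm_add_le _ _).trans ?_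
      rw [norm_neg]
    linarith

end Pool.Agent.T9h18.GP
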