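import Pool.Agent.T9h40.GP.Spec

/-!
# K3 (KeyGlob)
-/

set_option autoImplicit false

open Polynomial Filter Topology Bornology

namespace Pool.Agent.T9h18.GP

open Pool.Agent.T9h40.GP

theorem isOpen_out (R : ℝ) : IsOpen {t : ℂ | R < ‖t‖} := isOpen_lt continuous_const continuous_norm

theorem keyGlob : KeyGlob := by
  intro n P R R' y K hB hK L hL hL0 hf
  have h1 : ∀ j, ∃ r : ℝ, ∀ t : ℂ, r < ‖t‖ → R' < ‖y j t‖ := by
    intro j
    have h := (hB.inf j).eventually (eventually_gt_atTop R')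
    rw [← comap_norm_atTop, eventually_comap] at h
    obtain ⟨r, hr⟩ := eventually_atTop.1 h
    exact ⟨r, fun t ht => hr ‖t‖ ht.le t rfl⟩
  choose r hr using h1
  obtain ⟨R₂, hR₂⟩ : ∃ R₂ : ℝ, R ≤ R₂ ∧ ∀ j, r j ≤ R₂ := by
    refine ⟨max R (∑ j, |r j|), le_max_left _ _, fun j => ?_⟩
    refine le_trans ?_ (le_max_right _ _)
    exact (le_abs_self _).trans (Finset.single_le_sum (fun i _ => abs_nonneg (r i))
      (Finset.mem_univ j))
  have hRpos : 0 < R₂ := hB.Rpos.trans_le hR₂.1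
  have hder : ∀ j t, R₂ < ‖t‖ → fderiv ℝ (L j) t = 0 := by
    intro j t₀ ht₀
    have htR : R < ‖t₀‖ := hR₂.1.trans_lt ht₀
    have hopen : {t : ℂ | R < ‖t‖} ∈ 𝓝 t₀ := (isOpen_out R).mem_nhds htR
    have hd : HasStrictDerivAt (y j) (deriv (y j) t₀) t₀ :=
      ((hB.diff j).contDiffOn (n := 1) (isOpen_out R)).contDiffAt hopen |>.hasStrictDerivAt
        (by norm_num)
    have hm := hd.map_nhds_eq (hB.der j t₀ htR)
    have hfr : ∃ᶠ s in 𝓝 (y j t₀), s ∈ K := mem_closure_iff_frequently.1 (hK (y j t₀))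
    rw [← hm] at hfr
    have hfr2 : ∃ᶠ t in 𝓝 t₀, y j t ∈ K := hfr
    have hev : ∀ᶠ t in 𝓝 t₀, R₂ < ‖t‖ := (isOpen_out R₂).mem_nhds ht₀
    have hfr3 : ∃ᶠ t in 𝓝 t₀, fderiv ℝ (L j) t = 0 :=
      (hfr2.and_eventually hev).mono fun t ht =>
        hf j t (hR₂.1.trans_lt ht.2) ht.1 (hr j t ((hR₂.2 j).trans_lt ht.2))
    have hc : ContinuousAt (fderiv ℝ (L j)) t₀ :=
      ((hL j).continuousOn_fderiv_of_isOpen (isOpen_out R) (by norm_num)).continuousAt hopen
    by_contra hne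
    have := hc.eventually (isOpen_ne.mem_nhds hne)
    exact hfr3 (this.mono fun t ht h => ht h)
  refine ⟨R₂, hR₂.1, fun j t ht => ?_⟩
  have hconst : ∀ ρ : ℝ, 1 ≤ ρ → L j ((ρ : ℂ) * t) = L j t := by
    intro ρ hρ
    have hin : ∀ x : ℝ, 1 ≤ x → R₂ < ‖(x : ℂ) * t‖ := by
      intro x hx
      rw [norm_mul, Complex.norm_real, Real.norm_eq_abs, abs_of_nonneg (by linarith)]
      nlinarith [norm_nonneg t]
    have hd : ∀ x : ℝ, 1 ≤ x → HasDerivAt (fun x : ℝ => L j ((x : ℂ) * t)) 0 x := by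
      intro x hx
      have h2 : DifferentiableAt ℝ (L j) ((x : ℂ) * t) :=
        ((hL j).differentiableOn (by norm_num)).differentiableAt
          ((isOpen_out R).mem_nhds (hR₂.1.trans_lt (hin x hx)))
      have h3 := h2.hasFDerivAt
      rw [hder j _ (hin x hx)] at h3
      have h4 : HasDerivAt (fun x : ℝ => (x : ℂ) * t) t x := by
        have := (Complex.ofRealCLM.hasDerivAt (x := x)).mul_const t
        simpa using this
      have h5 := h3.comp_hasDerivAt x h4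
      rw [zero_apply] at h5
      exact h5
    have := constant_of_has_deriv_right_zero (f := fun x : ℝ => L j ((x : ℂ) * t)) (a := 1)
      (b := ρ) (fun x hx => (hd x hx.1).continuousAt.continuousWithinAt)
      (fun x hx => (hd x hx.1).hasDerivWithinAt) ρ ⟨hρ, le_refl _⟩
    simpa using this
  have ht0 : t ≠ 0 := by
    rintro rfl
    rw [norm_zero] at ht
    linarith
  have htend : Tendsto (fun ρ : ℝ => (ρ : ℂ) * t) atTop (cobounded ℂ) := by
    rw [← tendsto_norm_atTop_iff_cobounded]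
    have : (fun ρ : ℝ => ‖(ρ : ℂ) * t‖) = fun ρ : ℝ => |ρ| * ‖t‖ := by
      funext ρ
      rw [norm_mul, Complex.norm_real, Real.norm_eq_abs]
    rw [this]
    exact tendsto_abs_atTop_atTop.atTop_mul_const (norm_pos_iff.2 ht0)
  have h6 := (hL0 j).comp htend
  have h7 : Tendsto (fun ρ : ℝ => L j ((ρ : ℂ) * t)) atTop (𝓝 (L j t)) :=
    tendsto_const_nhds.congr' ((eventually_ge_atTop (1 : ℝ)).mono fun ρ hρ => (hconst ρ hρ).symm)
  exact tendsto_nhds_unique h7 h6

end Pool.Agent.T9h18.GP
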